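import Mathlib

set_option autoImplicit false

namespace Pool.Agent.Lib.MP_b48bf9_nt

open Polynomial Finset

/-- The length of an integer polynomial, as a natural number. -/
def len (P : ℤ[X]) : ℕ := ∑ i ∈ P.support, (P.coeff i).natAbs

/-- The functional `∑ c_i X^i ↦ ∑ c_i φ(i)`. -/
def lam {R : Type*} [CommRing R] (φ : ℕ → R) (P : R[X]) : R := P.sum (fun i c => c * φ i)

/-- The part of `P` with exponents `≡ r (mod q)`, written in the variable `X^q`. -/
noncomputable def cmp {R : Type*} [CommRing R] (q r : ℕ) (P : R[X]) : R[X] :=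
  ∑ j ∈ range (P.natDegree + 1), monomial j (P.coeff (q * j + r))

variable {R : Type*} [CommRing R]

theorem coeff_cmp {q : ℕ} (hq : 0 < q) (r : ℕ) (P : R[X]) (j : ℕ) :
    (cmp q r P).coeff j = P.coeff (q * j + r) := by
  unfold cmp
  rw [finsetSum_coeff]
  simp only [coeff_monomial]
  rw [Finset.sum_ite_eq' (range (P.natDegree + 1)) j]
  split_ifs with h
  · rfl
  · rw [mem_range] at h
    symm
    apply coeff_eq_zero_of_natDegree_lt
    have : j ≤ q * j := Nat.le_mul_of_pos_left j hq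
    omega

theorem cmp_add {q : ℕ} (hq : 0 < q) (r : ℕ) (P Q : R[X]) :
    cmp q r (P + Q) = cmp q r P + cmp q r Q := by
  ext j
  simp only [coeff_cmp hq, coeff_add]

theorem cmp_C_mul {q : ℕ} (hq : 0 < q) (r : ℕ) (a : R) (P : R[X]) :
    cmp q r (C a * P) = C a * cmp q r P := by
  ext j
  simp only [coeff_cmp hq, coeff_C_mul]

theorem cmp_map {S : Type*} [CommRing S] (f : R →+* S) {q : ℕ} (hq : 0 < q) (r : ℕ) (P : R[X]) :
    (cmp q r P).map f = cmp q r (P.map f) := by
  ext j
  simp only [coeff_cmp hq, coeff_map]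

theorem cmp_X_pow_sub_one_mul {q r : ℕ} (hr : r < q) (P : R[X]) :
    cmp q r ((X ^ q - 1) * P) = (X - 1) * cmp q r P := by
  have hq : 0 < q := by omega
  ext j
  rw [coeff_cmp hq, sub_mul, sub_mul, one_mul, one_mul, coeff_sub, coeff_sub, coeff_cmp hq,
    coeff_X_pow_mul']
  congr 1
  rcases j with _ | j
  · rw [if_neg (by omega)]
    simp
  · rw [if_pos (by nlinarith), coeff_X_mul, coeff_cmp hq]
    congr 1
    rw [Nat.mul_succ]
    omega

theorem cmp_pow_mul {q r : ℕ} (hr : r < q) (m : ℕ) (P : R[X]) :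
    cmp q r ((X ^ q - 1) ^ m * P) = (X - 1) ^ m * cmp q r P := by
  induction m with
  | zero => simp
  | succ m ih => rw [pow_succ', mul_assoc, cmp_X_pow_sub_one_mul hr, ih, pow_succ', mul_assoc]

theorem sum_cmp {M : Type*} [AddCommMonoid M] {q : ℕ} (hq : 0 < q) (P : R[X]) (f : ℕ → R → M) :
    ∑ i ∈ P.support, f i (P.coeff i) =
      ∑ r ∈ range q, ∑ j ∈ (cmp q r P).support, f (q * j + r) ((cmp q r P).coeff j) := by
  rw [← Finset.sum_fiberwise_of_maps_to (s := P.support) (t := range q) (g := fun i => i % q)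
    (fun i _ => mem_range.2 (Nat.mod_lt i hq))]
  refine Finset.sum_congr rfl fun r hr => ?_
  have hr' := mem_range.1 hr
  symm
  refine Finset.sum_nbij' (fun j => q * j + r) (fun i => i / q) ?_ ?_ ?_ ?_ ?_
  · intro j hj
    rw [mem_support_iff, coeff_cmp hq] at hj
    simp only [mem_filter, mem_support_iff]
    refine ⟨hj, ?_⟩
    rw [Nat.mul_add_mod, Nat.mod_eq_of_lt hr']
  · intro i hi
    simp only [mem_filter, mem_support_iff] at hi
    rw [mem_support_iff, coeff_cmp hq, ← hi.2, Nat.div_add_mod]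
    exact hi.1
  · intro j _
    show (q * j + r) / q = j
    rw [Nat.mul_add_div hq, Nat.div_eq_of_lt hr', add_zero]
  · intro i hi
    simp only [mem_filter, mem_support_iff] at hi
    show q * (i / q) + r = i
    rw [← hi.2, Nat.div_add_mod]
  · intro j _
    rw [coeff_cmp hq]

theorem len_eq_sum_cmp {q : ℕ} (hq : 0 < q) (P : ℤ[X]) :
    len P = ∑ r ∈ range q, len (cmp q r P) :=
  sum_cmp hq P (fun _ c => c.natAbs)

theorem lam_add (φ : ℕ → R) (P Q : R[X]) : lam φ (P + Q) = lam φ P + lam φ Q := by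
  unfold lam
  exact sum_add_index P Q _ (fun _ => by simp) (fun _ _ _ => by ring)

theorem lam_monomial (φ : ℕ → R) (n : ℕ) (a : R) : lam φ (monomial n a) = a * φ n := by
  unfold lam
  exact sum_monomial_index a _ (by simp)

theorem lam_X_sub_one_mul (φ : ℕ → R) (P : R[X]) :
    lam φ ((X - 1) * P) = lam (fwdDiff 1 φ) P := by
  induction P using Polynomial.induction_on' with
  | add p q hp hq => rw [mul_add, lam_add, lam_add, hp, hq]
  | monomial n a =>
    have : (X - 1 : R[X]) * monomial n a = monomial (n + 1) a + monomial n (-a) := by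
      rw [sub_mul, X_mul_monomial, one_mul, map_neg, sub_eq_add_neg]
    rw [this, lam_add, lam_monomial, lam_monomial, lam_monomial, fwdDiff]
    ring

theorem lam_pow_mul (φ : ℕ → R) (m : ℕ) (P : R[X]) :
    lam φ ((X - 1) ^ m * P) = lam ((fwdDiff 1)^[m] φ) P := by
  induction m generalizing φ with
  | zero => simp
  | succ m ih => rw [pow_succ', mul_assoc, lam_X_sub_one_mul, ih, Function.iterate_succ_apply]

theorem lam_const (c : R) (P : R[X]) : lam (fun _ => c) P = P.eval 1 * c := by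
  unfold lam
  rw [eval_eq_sum, Polynomial.sum, Polynomial.sum, Finset.sum_mul]
  simp

theorem fwdDiff_iter_cast (f : R → R) (m : ℕ) :
    (fwdDiff 1)^[m] (fun i : ℕ => f i) = fun i : ℕ => ((fwdDiff 1)^[m] f) i := by
  funext i
  simp [fwdDiff_iter_eq_sum_shift]

/-- Moments of a polynomial with a zero of order `m` at `1` vanish below degree `m`. -/
theorem lam_eval_lt (g : R[X]) {m : ℕ} (hg : g.natDegree < m) (P : R[X]) :
    lam (fun i : ℕ => g.eval (i : R)) ((X - 1) ^ m * P) = 0 := by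
  rw [lam_pow_mul, fwdDiff_iter_cast g.eval, Polynomial.fwdDiff_iter_eq_zero_of_degree_lt hg]
  have := lam_const (0 : R) P
  simpa using this

theorem lam_eval_eq (g : R[X]) (hg : g.Monic) (P : R[X]) :
    lam (fun i : ℕ => g.eval (i : R)) ((X - 1) ^ g.natDegree * P) =
      P.eval 1 * (g.natDegree.factorial : R) := by
  rw [lam_pow_mul, fwdDiff_iter_cast g.eval, Polynomial.fwdDiff_iter_degree_eq_factorial,
    hg.leadingCoeff, one_smul]
  exact lam_const _ P

theorem lam_choose (m : ℕ) (P : ℤ[X]) :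
    lam (fun i : ℕ => (i.choose m : ℤ)) ((X - 1) ^ m * P) = P.eval 1 := by
  rw [lam_pow_mul]
  have := fwdDiff_iter_choose 0 m
  simp only [add_zero, Nat.choose_zero_right, Nat.cast_one] at this
  rw [this, lam_const, mul_one]

theorem lam_periodic {q : ℕ} (hq : 0 < q) (φ : ℕ → R) (hφ : ∀ j r, φ (q * j + r) = φ r)
    (P : R[X]) : lam φ P = ∑ r ∈ range q, (cmp q r P).eval 1 * φ r := by
  unfold lam
  rw [Polynomial.sum, sum_cmp hq P (fun i c => c * φ i)]
  refine Finset.sum_congr rfl fun r _ => ?_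
  simp only [hφ]
  exact lam_const (φ r) (cmp q r P)

/-- Size of the value at `1` of the cofactor. -/
theorem natAbs_eval_le (m a d : ℕ) (T H : ℤ[X]) (h : T = (X - 1) ^ m * H)
    (hd : ∀ j ∈ T.support, a * j ≤ d) : a ^ m * (H.eval 1).natAbs ≤ len T * d ^ m := by
  rw [← lam_choose m H, ← h]
  unfold lam len
  rw [Polynomial.sum, Finset.sum_mul]
  refine le_trans (Nat.mul_le_mul_left _ (Int.natAbs_sum_le _ _)) ?_
  rw [Finset.mul_sum]
  refine Finset.sum_le_sum fun j hj => ?_
  rw [Int.natAbs_mul, Int.natAbs_natCast, mul_left_comm]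
  refine Nat.mul_le_mul_left _ ?_
  calc a ^ m * j.choose m ≤ a ^ m * j ^ m := Nat.mul_le_mul_left _ (Nat.choose_le_pow j m)
    _ = (a * j) ^ m := (mul_pow _ _ _).symm
    _ ≤ d ^ m := Nat.pow_le_pow_left (hd j hj) m

end Pool.Agent.Lib.MP_b48bf9_nt
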