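import Pool.Agent.Lib.MP_b48bf9_nt.Mod

set_option autoImplicit false

namespace Pool.Agent.Lib.MP_b48bf9_nt

open Polynomial Finset

/-- The product of the cyclotomic polynomials with indices in `s`. -/
noncomputable def cp (s : Multiset ℕ) : ℤ[X] := (s.map fun n => cyclotomic n ℤ).prod

theorem cp_zero : cp 0 = 1 := by simp [cp]

theorem cp_cons (n : ℕ) (s : Multiset ℕ) : cp (n ::ₘ s) = cyclotomic n ℤ * cp s := by simp [cp]

theorem cp_add (s t : Multiset ℕ) : cp (s + t) = cp s * cp t := by simp [cp]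

theorem cp_split (s : Multiset ℕ) (q : ℕ) :
    cp s = cyclotomic q ℤ ^ s.count q * cp (s.filter (· ≠ q)) := by
  conv_lhs => rw [← Multiset.filter_add_not (· = q) s, cp_add, Multiset.filter_eq']
  simp [cp]

theorem eval_one_cases (R : Type*) [CommRing R] {n : ℕ} (hn : n ≠ 1) :
    (∃ p j : ℕ, p.Prime ∧ n = p ^ (j + 1) ∧ (cyclotomic n R).eval 1 = p) ∨
      (cyclotomic n R).eval 1 = 1 := by
  by_cases h : ∃ p j : ℕ, p.Prime ∧ p ^ j = n
  · obtain ⟨p, j, hp, rfl⟩ := h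
    have := Fact.mk hp
    rcases j with _ | j
    · simp at hn
    · exact Or.inl ⟨p, j, hp, rfl, eval_one_cyclotomic_prime_pow j⟩
  · exact Or.inr (eval_one_cyclotomic_not_prime_pow fun hp k hk => h ⟨_, k, hp, hk⟩)

theorem cyclotomic_mod {q : ℕ} (hq : q.Prime) {n : ℕ} (hn : n ≠ 1) :
    ∃ (F : ℕ) (G : (ZMod q)[X]), cyclotomic n (ZMod q) =
      (X - 1) ^ ((q - 1) * (if q = n then 1 else 0) + q * ((q - 1) * F)) * G ∧ G.eval 1 ≠ 0 := by
  have := Fact.mk hq
  by_cases h : ∃ j, n = q ^ (j + 1)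
  · obtain ⟨j, rfl⟩ := h
    have h1 := cyclotomic_mul_prime_pow_eq (ZMod q) (p := q) (m := 1) hq.not_dvd_one
      (k := j + 1) (Nat.succ_pos j)
    rw [mul_one, cyclotomic_one] at h1
    obtain ⟨p, rfl⟩ : ∃ p, q = p + 1 := ⟨q - 1, by have := hq.pos; omega⟩
    rcases j with _ | j
    · refine ⟨0, 1, ?_, by simp⟩
      rw [h1]
      simp
    · refine ⟨(p + 1) ^ j, 1, ?_, by simp⟩
      have h2 : p + 1 ≠ (p + 1) ^ (j + 1 + 1) := by
        intro h
        have := Nat.pow_right_injective hq.two_le ((pow_one (p + 1)).trans h)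
        omega
      rw [h1, if_neg h2, mul_one]
      congr 1
      simp only [Nat.add_sub_cancel, mul_zero, zero_add]
      apply Nat.sub_eq_of_eq_add
      ring
  · have h2 : q ≠ n := fun h3 => h ⟨0, by simp [h3]⟩
    refine ⟨0, cyclotomic n (ZMod q), by simp [h2], ?_⟩
    rcases eval_one_cases (ZMod q) hn with ⟨p, j, hp, h3, h4⟩ | h4
    · rw [h4, Ne, ZMod.natCast_eq_zero_iff]
      intro h5
      exact h ⟨j, by rw [h3, (Nat.prime_dvd_prime_iff_eq hq hp).1 h5]⟩
    · rw [h4]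
      exact one_ne_zero

theorem cp_mod {q : ℕ} (hq : q.Prime) (s : Multiset ℕ) (hs : ∀ n ∈ s, n ≠ 1) :
    ∃ (F : ℕ) (G : (ZMod q)[X]), (cp s).map (Int.castRingHom (ZMod q)) =
      (X - 1) ^ ((q - 1) * s.count q + q * ((q - 1) * F)) * G ∧ G.eval 1 ≠ 0 := by
  have := Fact.mk hq
  induction s using Multiset.induction_on with
  | empty => exact ⟨0, 1, by simp [cp_zero], by simp⟩
  | cons n s ih =>
    obtain ⟨F, G, h1, h2⟩ := ih fun a ha => hs a (Multiset.mem_cons_of_mem ha)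
    obtain ⟨F', G', h3, h4⟩ := cyclotomic_mod hq (hs n (Multiset.mem_cons_self _ _))
    refine ⟨F + F', G * G', ?_, by rw [eval_mul]; exact mul_ne_zero h2 h4⟩
    rw [cp_cons, Polynomial.map_mul, map_cyclotomic_int, h1, h3, Multiset.count_cons]
    ring

/-- The weight inequality. -/
theorem prop_weight {q : ℕ} (hq : q.Prime) (k U ρ : ℕ) (hk : k = ρ + q * U) (hρ : ρ < q)
    (s : Multiset ℕ) (hs : ∀ n ∈ s, n ≠ 1) (hm : s.count q ≤ ρ) (h2 : 2 * (U + s.count q) ≤ q) :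
    (ρ - s.count q + 1) * (2 * (U + s.count q)) ≤ len ((X - 1) ^ k * cp s) := by
  obtain ⟨F, G, h1, hG⟩ := cp_mod hq s hs
  refine weight_bound hq _ (ρ - s.count q) (U + s.count q) F G ?_ hG (by omega) h2
  rw [Polynomial.map_mul, h1, ← mul_assoc]
  simp only [Polynomial.map_pow, Polynomial.map_sub, map_X, Polynomial.map_one, ← pow_add]
  congr 2
  obtain ⟨p, rfl⟩ : ∃ p, q = p + 1 := ⟨q - 1, by have := hq.pos; omega⟩
  obtain ⟨e, he⟩ := Nat.exists_eq_add_of_le hm
  rw [hk, he]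
  simp only [Nat.add_sub_cancel, Nat.add_sub_cancel_left]
  ring

theorem pow_dvd_eval_cmp {q : ℕ} (hq : q.Prime) (ho : Odd q) {r : ℕ} (hr : r < q) (U : ℕ) :
    ∀ H : ℤ[X], (q : ℤ) ^ U ∣ (cmp q r ((X - 1) ^ (q * U) * H)).eval 1 := by
  obtain ⟨E, hE⟩ := exists_add_pow_prime_eq hq (X : ℤ[X]) (-1)
  rw [ho.neg_one_pow, ← sub_eq_add_neg, ← sub_eq_add_neg] at hE
  induction U with
  | zero => simp
  | succ U ih =>
    intro H
    have h1 : (X - 1 : ℤ[X]) ^ (q * (U + 1)) * H = (X ^ q - 1) * ((X - 1) ^ (q * U) * H) +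
        C (q : ℤ) * ((X - 1) ^ (q * U) * (X * -1 * E * H)) := by
      rw [Nat.mul_succ, pow_add, hE]
      simp only [eq_intCast, Int.cast_natCast]
      ring
    rw [h1, cmp_add hq.pos, cmp_X_pow_sub_one_mul hr, cmp_C_mul hq.pos]
    simp only [eval_add, eval_mul, eval_sub, eval_X, eval_one, sub_self, zero_mul, zero_add, eval_C]
    rw [pow_succ']
    exact mul_dvd_mul_left _ (ih _)

theorem exists_cmp_ne_zero {q : ℕ} (hq : 0 < q) (H : ℤ[X]) (ω : ℂ) (hω : ω ^ q = 1)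
    (hH : (H.map (Int.castRingHom ℂ)).eval ω ≠ 0) : ∃ r, r < q ∧ (cmp q r H).eval 1 ≠ 0 := by
  by_contra hcon
  push Not at hcon
  apply hH
  have h1 : (H.map (Int.castRingHom ℂ)).eval ω = lam (fun i => ω ^ i) (H.map (Int.castRingHom ℂ)) :=
    eval_eq_sum
  rw [h1, lam_periodic hq _ (fun j r => by rw [pow_add, pow_mul, hω, one_pow, one_mul])]
  refine Finset.sum_eq_zero fun r hr => ?_
  rw [← cmp_map _ hq, eval_one_map, hcon r (mem_range.1 hr), map_zero, zero_mul]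

theorem cp_eval_ne_zero {q : ℕ} {ω : ℂ} (hω : IsPrimitiveRoot ω q) (s : Multiset ℕ)
    (hs : ∀ n ∈ s, 0 < n ∧ n ≠ q) : ((cp s).map (Int.castRingHom ℂ)).eval ω ≠ 0 := by
  induction s using Multiset.induction_on with
  | empty => simp [cp_zero]
  | cons n s ih =>
    rw [cp_cons, Polynomial.map_mul, map_cyclotomic_int, eval_mul]
    refine mul_ne_zero ?_ (ih fun a ha => hs a (Multiset.mem_cons_of_mem ha))
    obtain ⟨h1, h2⟩ := hs n (Multiset.mem_cons_self _ _)
    intro h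
    exact h2 (((isRoot_cyclotomic_iff_charZero h1).1 h).unique hω)

/-- The multiplicity of `Φ_q` is forced up by the degree. -/
theorem prop_mult {q : ℕ} (hq : q.Prime) (ho : Odd q) (k U ρ : ℕ) (hk : k = ρ + q * U)
    (s : Multiset ℕ) (hs : ∀ n ∈ s, 0 < n) (hm : s.count q ≤ ρ) :
    q ^ (U + s.count q) ≤ len ((X - 1) ^ k * cp s) *
      ((X - 1) ^ k * cp s).natDegree ^ s.count q := by
  have := Fact.mk hq
  obtain ⟨e, he⟩ := Nat.exists_eq_add_of_le hm
  set m := s.count q with hmdef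
  set P : ℤ[X] := (X - 1) ^ k * cp s with hP
  set H : ℤ[X] := (X - 1) ^ (q * U) * ((X - 1) ^ e * cp (s.filter (· ≠ q))) with hH
  have h1 : P = (X ^ q - 1) ^ m * H := by
    rw [hP, hH, cp_split s q, ← cyclotomic_prime_mul_X_sub_one ℤ q, hk, he, ← hmdef, mul_pow]
    ring
  have hω := Complex.isPrimitiveRoot_exp q hq.pos.ne'
  set ω := Complex.exp (2 * Real.pi * Complex.I / q)
  have h2 : (H.map (Int.castRingHom ℂ)).eval ω ≠ 0 := by
    have h3 : ω - 1 ≠ 0 := sub_ne_zero.2 (hω.ne_one hq.one_lt)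
    rw [hH]
    simp only [Polynomial.map_mul, Polynomial.map_pow, Polynomial.map_sub, map_X,
      Polynomial.map_one, eval_mul, eval_pow, eval_sub, eval_X, eval_one]
    refine mul_ne_zero (pow_ne_zero _ h3) (mul_ne_zero (pow_ne_zero _ h3)
      (cp_eval_ne_zero hω _ fun n hn => ?_))
    rw [Multiset.mem_filter] at hn
    exact ⟨hs n hn.1, hn.2⟩
  obtain ⟨r, hr, h4⟩ := exists_cmp_ne_zero hq.pos H ω hω.pow_eq_one h2
  have h5 : q ^ U ≤ ((cmp q r H).eval 1).natAbs := by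
    refine Nat.le_of_dvd (Int.natAbs_pos.2 h4) ?_
    have := Int.natAbs_dvd_natAbs.2 (pow_dvd_eval_cmp hq ho hr U
      ((X - 1) ^ e * cp (s.filter (· ≠ q))))
    rwa [Int.natAbs_pow, Int.natAbs_natCast] at this
  have h6 := natAbs_eval_le m q P.natDegree (cmp q r P) (cmp q r H)
    (by rw [h1, cmp_pow_mul hr]) (fun j hj => by
      rw [mem_support_iff, coeff_cmp hq.pos] at hj
      exact le_trans (Nat.le_add_right _ r) (le_natDegree_of_ne_zero hj))
  calc q ^ (U + m) = q ^ m * q ^ U := by ring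
    _ ≤ q ^ m * ((cmp q r H).eval 1).natAbs := Nat.mul_le_mul_left _ h5
    _ ≤ len (cmp q r P) * P.natDegree ^ m := h6
    _ ≤ _ := Nat.mul_le_mul_right _ (len_cmp_le hr P)

theorem prod_le_eval (Q : Finset ℕ) (hQ : ∀ q ∈ Q, q.Prime) (s : Multiset ℕ)
    (hs : ∀ n ∈ s, n ≠ 1) : ∏ q ∈ Q, q ^ s.count q ≤ ((cp s).eval 1).natAbs := by
  induction s using Multiset.induction_on with
  | empty => simp [cp_zero]
  | cons n s ih =>
    have h1 := ih fun a ha => hs a (Multiset.mem_cons_of_mem ha)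
    simp only [Multiset.count_cons, pow_add, Finset.prod_mul_distrib, cp_cons, eval_mul,
      Int.natAbs_mul]
    rw [mul_comm]
    refine Nat.mul_le_mul ?_ h1
    simp only [pow_ite, pow_one, pow_zero, Finset.prod_ite_eq']
    split_ifs with h
    · have := Fact.mk (hQ n h)
      simp
    · rcases eval_one_cases ℤ (hs n (Multiset.mem_cons_self _ _)) with ⟨p, j, hp, -, h4⟩ | h4
      · rw [h4, Int.natAbs_natCast]
        exact hp.pos
      · rw [h4]
        simp

/-- The budget for the multiplicities of the `Φ_q`. -/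
theorem prop_budget (Q : Finset ℕ) (hQ : ∀ q ∈ Q, q.Prime) (k : ℕ) (s : Multiset ℕ)
    (hs : ∀ n ∈ s, n ≠ 1) : ∏ q ∈ Q, q ^ s.count q ≤
      len ((X - 1) ^ k * cp s) * ((X - 1) ^ k * cp s).natDegree ^ k := by
  have h := natAbs_eval_le k 1 ((X - 1) ^ k * cp s).natDegree _ (cp s) rfl (fun j hj => by
    rw [one_mul]
    exact le_natDegree_of_mem_supp j hj)
  rw [one_pow, one_mul] at h
  exact (prod_le_eval Q hQ s hs).trans h

end Pool.Agent.Lib.MP_b48bf9_nt
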