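import Pool.Agent.Lib.MP_b48bf9_nt.Cyc
import Pool.Agent.Lib.helper57.PNT

set_option autoImplicit false

namespace Pool.Agent.Lib.MP_b48bf9_nt

open Polynomial Finset Filter Topology

theorem ev_primes {c : ℝ} (hc : 1 < c) : ∀ᶠ x : ℝ in atTop, ∃ Q : Finset ℕ,
    (∀ p ∈ Q, p.Prime ∧ x < p ∧ (p : ℝ) ≤ c * x) ∧ (c - 1) / 2 * x ≤ ∑ p ∈ Q, Real.log p := by
  have h1 : Tendsto (fun x : ℝ => c * (Chebyshev.theta (c * x) / (c * x)) -
      Chebyshev.theta x / x) atTop (𝓝 (c * 1 - 1)) :=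
    ((helper57.pnt_theta.comp (tendsto_id.const_mul_atTop (by linarith : 0 < c))).const_mul c).sub
      helper57.pnt_theta
  filter_upwards [h1.eventually (lt_mem_nhds (show (c - 1) / 2 < c * 1 - 1 by linarith)),
    eventually_gt_atTop 0] with x hx hx0
  have h3 : c * (Chebyshev.theta (c * x) / (c * x)) = Chebyshev.theta (c * x) / x := by
    field_simp
  rw [h3, ← sub_div, lt_div_iff₀ hx0] at hx
  have hsub : (Ioc 0 ⌊x⌋₊).filter Nat.Prime ⊆ (Ioc 0 ⌊c * x⌋₊).filter Nat.Prime :=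
    filter_subset_filter _ (Ioc_subset_Ioc_right (Nat.floor_le_floor (by nlinarith)))
  refine ⟨(Ioc 0 ⌊c * x⌋₊).filter Nat.Prime \ (Ioc 0 ⌊x⌋₊).filter Nat.Prime, fun p hp => ?_, ?_⟩
  · simp only [Finset.mem_sdiff, Finset.mem_filter, Finset.mem_Ioc, not_and] at hp
    refine ⟨hp.1.2, ?_, (Nat.le_floor_iff (by positivity)).1 hp.1.1.2⟩
    by_contra h
    exact hp.2 ⟨hp.1.1.1, (Nat.le_floor_iff hx0.le).2 (not_lt.1 h)⟩ hp.1.2
  · have h4 := Finset.sum_sdiff (f := fun p : ℕ => Real.log p) hsub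
    unfold Chebyshev.theta at hx
    linarith

theorem ev_log {K A γ : ℝ} (hK : 0 < K) (hA : 0 < A) (hγ : 0 < γ) :
    ∀ᶠ x : ℝ in atTop, Real.log K + Real.log x + x * (A * Real.log x) < γ * x ^ 2 := by
  have h1 := Real.isLittleO_log_id_atTop.bound (show 0 < γ / (2 * (A + 2)) by positivity)
  filter_upwards [h1, eventually_ge_atTop K, eventually_ge_atTop 1] with x h2 h3 h4
  have h5 : 0 ≤ Real.log x := Real.log_nonneg h4
  have h6 : Real.log K ≤ Real.log x := Real.log_le_log hK h3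
  simp only [id, Real.norm_eq_abs] at h2
  rw [abs_of_nonneg h5, abs_of_nonneg (by linarith)] at h2
  have h7 : Real.log x ≤ x * Real.log x := by nlinarith
  have h8 : (A + 2) * Real.log x ≤ γ / 2 * x := by
    calc (A + 2) * Real.log x ≤ (A + 2) * (γ / (2 * (A + 2)) * x) := by gcongr
      _ = γ / 2 * x := by field_simp
  have h9 : x * ((A + 2) * Real.log x) ≤ x * (γ / 2 * x) := by gcongr
  have h10 : 0 < γ * x ^ 2 := by positivity
  nlinarith

theorem core {q k U m ρ L : ℕ} {B : ℝ} (hB : 0 < B) (hU : 3 ≤ U)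
    (h : (ρ - m + 1) * (2 * (U + m)) ≤ L) (hk : k < (U + 1) * q) (hm : (U + 1) * m ≤ q)
    (hρ : U * q ≤ (U + 1) * ρ) (hmB : (U - 2) * B ≤ m) :
    (2 + 2 * B) * (1 - 5 / (U + 1)) * k ≤ L := by
  have hmρ : m ≤ ρ := by
    have : (U + 1) * m ≤ (U + 1) * ρ := by nlinarith
    exact Nat.le_of_mul_le_mul_left this (by omega)
  have h1 : ((ρ : ℝ) - m + 1) * (2 * (U + m)) ≤ L := by
    have := (Nat.cast_le (α := ℝ)).2 h
    push_cast [Nat.cast_sub hmρ] at this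
    exact this
  have hU' : (3 : ℝ) ≤ U := by exact_mod_cast hU
  have hk' : (k : ℝ) ≤ (U + 1) * q := by exact_mod_cast hk.le
  have hm' : ((U : ℝ) + 1) * m ≤ q := by exact_mod_cast hm
  have hρ' : (U : ℝ) * q ≤ (U + 1) * ρ := by exact_mod_cast hρ
  have hV : (0 : ℝ) < U + 1 := by linarith
  have h2 : (U - 1) / (U + 1) ^ 2 * (k : ℝ) ≤ (ρ : ℝ) - m + 1 := by
    rw [div_mul_eq_mul_div, div_le_iff₀ (by positivity)]
    have h3 : ((U : ℝ) - 1) * q ≤ (U + 1) * (ρ - m + 1) := by nlinarith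
    have h4 : ((U : ℝ) - 1) * k ≤ (U - 1) * ((U + 1) * q) :=
      mul_le_mul_of_nonneg_left hk' (by linarith)
    have h5 := mul_le_mul_of_nonneg_left h3 hV.le
    nlinarith
  have h6 : (2 + 2 * B) * (U - 2) ≤ 2 * ((U : ℝ) + m) := by nlinarith
  have h7 : (0 : ℝ) ≤ (U - 1) / (U + 1) ^ 2 * (k : ℝ) :=
    mul_nonneg (div_nonneg (by linarith) (by positivity)) (by positivity)
  have h8 : (0 : ℝ) ≤ (2 + 2 * B) * (U - 2) := mul_nonneg (by linarith) (by linarith)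
  have h9 := mul_le_mul h2 h6 h8 (h7.trans h2)
  have h10 : 1 - 5 / ((U : ℝ) + 1) ≤ (U - 1) / (U + 1) ^ 2 * (U - 2) := by
    rw [div_mul_eq_mul_div, le_div_iff₀ (by positivity)]
    have : (1 - 5 / ((U : ℝ) + 1)) * (U + 1) ^ 2 = (U + 1) * (U - 4) := by
      field_simp
      ring
    rw [this]
    nlinarith
  calc (2 + 2 * B) * (1 - 5 / (U + 1)) * k
      ≤ (2 + 2 * B) * ((U - 1) / (U + 1) ^ 2 * (U - 2)) * k := by gcongr
    _ = (U - 1) / (U + 1) ^ 2 * (k : ℝ) * ((2 + 2 * B) * (U - 2)) := by ring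
    _ ≤ L := h9.trans h1

theorem log_le_of_nat {a L d j : ℕ} {K x A : ℝ} (ha : 0 < a) (h : a ≤ L * d ^ j) (hK : 0 < K)
    (hx : 0 < x) (hL : (L : ℝ) ≤ K * x) (hd : (d : ℝ) ≤ x ^ A) :
    Real.log a ≤ Real.log K + Real.log x + j * (A * Real.log x) := by
  have h1 : (a : ℝ) ≤ K * x * (x ^ A) ^ j := by
    calc (a : ℝ) ≤ L * (d : ℝ) ^ j := by exact_mod_cast h
      _ ≤ K * x * (x ^ A) ^ j := by gcongr
  have h2 := Real.log_le_log (by exact_mod_cast ha) h1
  rwa [Real.log_mul (by positivity) (by positivity), Real.log_mul hK.ne' hx.ne', Real.log_pow,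
    Real.log_rpow hx] at h2

theorem nat_part {U q k m : ℕ} (hU : 3 ≤ U) (hkq : k < (U + 1) * q)
    (hqk : U * (U + 2) * q ≤ (U + 1) * k) (hqm : (U + 1) * m ≤ q) :
    ∃ ρ, k = ρ + q * U ∧ ρ < q ∧ U * q ≤ (U + 1) * ρ ∧ m ≤ ρ ∧ 4 * m ≤ q := by
  have hUq : q * U ≤ k := by
    have : (U + 1) * (q * U) ≤ (U + 1) * k := by nlinarith
    exact Nat.le_of_mul_le_mul_left this (by omega)
  obtain ⟨ρ, hρ⟩ := Nat.exists_eq_add_of_le' hUq
  have hρq : ρ < q := by nlinarith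
  have hρ2 : U * q ≤ (U + 1) * ρ := by nlinarith
  have hmρ : m ≤ ρ := by
    have : (U + 1) * m ≤ (U + 1) * ρ := by nlinarith
    exact Nat.le_of_mul_le_mul_left this (by omega)
  exact ⟨ρ, hρ, hρq, hρ2, hmρ, by nlinarith⟩

theorem mult_part {U m A B K x q : ℝ} (hU : 3 ≤ U) (hm0 : 0 ≤ m) (hA : 1 < A) (hB : 0 < B)
    (hBA : B * (A - 1) = 1) (hx : 1 < x) (hq : x / (U + 1) < q)
    (h1 : (U + m) * Real.log q ≤ Real.log K + Real.log x + m * (A * Real.log x))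
    (f3 : Real.log K + (U + U * B) * Real.log (U + 1) ≤ Real.log x) : (U - 2) * B ≤ m := by
  by_contra hno
  rw [not_le] at hno
  have hV : 0 < U + 1 := by linarith
  have hx0 : 0 < x := by linarith
  have h2 : Real.log x - Real.log (U + 1) ≤ Real.log q := by
    rw [← Real.log_div hx0.ne' hV.ne']
    exact Real.log_le_log (by positivity) hq.le
  have h3 : 0 < Real.log x := Real.log_pos hx
  have h4 : 0 ≤ Real.log (U + 1) := Real.log_nonneg (by linarith)
  have h5 : m * (A - 1) < U - 2 := by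
    have := mul_lt_mul_of_pos_right hno (sub_pos.2 hA)
    rwa [mul_assoc, hBA, mul_one] at this
  have h6 : (U + m) * (Real.log x - Real.log (U + 1)) ≤ (U + m) * Real.log q :=
    mul_le_mul_of_nonneg_left h2 (by linarith)
  have h7 : m * Real.log (U + 1) ≤ U * B * Real.log (U + 1) :=
    mul_le_mul_of_nonneg_right (by nlinarith) h4
  have h8 := mul_lt_mul_of_pos_right h5 h3
  nlinarith

theorem eps_part {U K ε : ℝ} (hU : 3 ≤ U) (hε : 0 < ε) (h : 5 * K / ε ≤ U) :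
    K - ε ≤ K * (1 - 5 / (U + 1)) := by
  rw [div_le_iff₀ hε] at h
  have : K * (5 / (U + 1)) ≤ ε := by
    rw [mul_div_assoc', div_le_iff₀ (by linarith)]
    nlinarith
  linarith

theorem main_ne_one {A ε : ℝ} (hA : 1 < A) (hε : 0 < ε) : ∃ k₀ : ℕ, ∀ k : ℕ, k₀ ≤ k →
    ∀ s : Multiset ℕ, (∀ n ∈ s, 0 < n) → (∀ n ∈ s, n ≠ 1) →
      ((((X - 1) ^ k * cp s).natDegree : ℝ) ≤ (k : ℝ) ^ A) →
      (2 + 2 / (A - 1) - ε) * k ≤ len ((X - 1) ^ k * cp s) := by
  have hA1 : 0 < A - 1 := by linarith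
  set B : ℝ := 1 / (A - 1) with hBdef
  have hB : 0 < B := by positivity
  have hBA : B * (A - 1) = 1 := by rw [hBdef]; field_simp
  have hK2 : 2 / (A - 1) = 2 * B := by rw [hBdef]; ring
  set K : ℝ := 2 + 2 * B with hKdef
  have hK : 0 < K := by positivity
  obtain ⟨U, hU1⟩ := exists_nat_ge (max 3 (5 * K / ε))
  have hU' : (3 : ℝ) ≤ U := (le_max_left _ _).trans hU1
  have hU : 3 ≤ U := by exact_mod_cast hU'
  have hUε : 5 * K / ε ≤ U := (le_max_right _ _).trans hU1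
  have hV : (0 : ℝ) < U + 1 := by linarith
  set c : ℝ := (U + 1) ^ 2 / (U * (U + 2)) with hcdef
  have hUU : (0 : ℝ) < U * (U + 2) := by positivity
  have hc : 1 < c := by
    rw [hcdef, lt_div_iff₀ hUU]
    nlinarith
  have t1 : Tendsto (fun k : ℕ => (k : ℝ)) atTop atTop := tendsto_natCast_atTop_atTop
  have t2 : Tendsto (fun k : ℕ => (k : ℝ) / (U + 1)) atTop atTop := t1.atTop_div_const hV
  have e1 := t2.eventually (ev_primes hc)
  have e2 := t1.eventually (ev_log hK (by linarith : 0 < A)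
    (show 0 < (c - 1) / 2 / (U + 1) ^ 3 by have := sub_pos.2 hc; positivity))
  have e3 := (Real.tendsto_log_atTop.comp t1).eventually
    (eventually_ge_atTop (Real.log K + (U + U * B) * Real.log (U + 1)))
  have e4 := t2.eventually (eventually_ge_atTop (4 * U : ℝ))
  have e5 := t1.eventually (eventually_gt_atTop 1)
  obtain ⟨k₀, hk₀⟩ := eventually_atTop.1 (e1.and (e2.and (e3.and (e4.and e5))))
  refine ⟨k₀, fun k hk s hs hs1 hd => ?_⟩
  obtain ⟨⟨Q, hQ, hQ2⟩, f2, f3, f4, f5⟩ := hk₀ k hk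
  simp only [Function.comp] at f3
  have hk0 : (0 : ℝ) < k := by linarith
  by_contra hcon
  rw [hK2, ← hKdef, not_le] at hcon
  have hL : (len ((X - 1) ^ k * cp s) : ℝ) ≤ K * k :=
    hcon.le.trans (mul_le_mul_of_nonneg_right (by linarith) hk0.le)
  -- a prime with small multiplicity
  obtain ⟨q, hqQ, hqm⟩ : ∃ q ∈ Q, (U + 1) * s.count q ≤ q := by
    by_contra hno
    push Not at hno
    have h1 := log_le_of_nat (Finset.prod_pos fun q hq => pow_pos (hQ q hq).1.pos _)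
      (prop_budget Q (fun q hq => (hQ q hq).1) k s hs1) hK hk0 hL hd
    have h2 : Real.log ((∏ q ∈ Q, q ^ s.count q : ℕ) : ℝ) =
        ∑ q ∈ Q, (s.count q : ℝ) * Real.log q := by
      push_cast
      rw [Real.log_prod (fun q hq => pow_ne_zero _ (by exact_mod_cast (hQ q hq).1.pos.ne'))]
      simp
    have h3 : ∑ q ∈ Q, (k : ℝ) / (U + 1) ^ 2 * Real.log q ≤
        ∑ q ∈ Q, (s.count q : ℝ) * Real.log q := by
      refine Finset.sum_le_sum fun q hq => mul_le_mul_of_nonneg_right ?_ (Real.log_natCast_nonneg q)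
      have h4 : (q : ℝ) ≤ (U + 1) * s.count q := by exact_mod_cast (hno q hq).le
      have h5 := (hQ q hq).2.1
      rw [div_lt_iff₀ hV] at h5
      rw [div_le_iff₀ (by positivity)]
      calc (k : ℝ) ≤ q * (U + 1) := h5.le
        _ ≤ (U + 1) * s.count q * (U + 1) := by gcongr
        _ = _ := by ring
    rw [← Finset.mul_sum] at h3
    have h6 : (k : ℝ) / (U + 1) ^ 2 * ((c - 1) / 2 * (k / (U + 1))) ≤
        (k : ℝ) / (U + 1) ^ 2 * ∑ q ∈ Q, Real.log q := by gcongr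
    have h7 : (k : ℝ) / (U + 1) ^ 2 * ((c - 1) / 2 * (k / (U + 1))) =
        (c - 1) / 2 / (U + 1) ^ 3 * (k : ℝ) ^ 2 := by field_simp
    linarith
  obtain ⟨hq, hq1, hq2⟩ := hQ q hqQ
  have hq4 : 4 * U < q := by exact_mod_cast f4.trans_lt hq1
  have hkq : k < (U + 1) * q := by
    rw [div_lt_iff₀ hV, mul_comm] at hq1
    exact_mod_cast hq1
  have hqk : U * (U + 2) * q ≤ (U + 1) * k := by
    have h1 : c * (k / (U + 1)) = (U + 1) * k / (U * (U + 2)) := by
      rw [hcdef]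
      field_simp
    rw [h1, le_div_iff₀ hUU, mul_comm] at hq2
    exact_mod_cast hq2
  obtain ⟨ρ, hρ, hρq, hρ2, hmρ, h4m⟩ := nat_part hU hkq hqk hqm
  have hw := prop_weight hq k U ρ hρ hρq s hs1 hmρ (by omega)
  have hmB : ((U : ℝ) - 2) * B ≤ s.count q := by
    have h1 := log_le_of_nat (pow_pos hq.pos _)
      (prop_mult hq (hq.odd_of_ne_two (by omega)) k U ρ hρ s hs hmρ) hK hk0 hL hd
    rw [Nat.cast_pow, Real.log_pow, Nat.cast_add] at h1
    exact mult_part hU' (Nat.cast_nonneg _) hA hB hBA f5 hq1 h1 f3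
  have hfin := core hB hU hw hkq hqm hρ2 hmB
  have h9 := eps_part hU' hε hUε
  have h10 := mul_le_mul_of_nonneg_right h9 hk0.le
  linarith

theorem cast_len (P : ℤ[X]) : (len P : ℝ) = ((∑ i ∈ P.support, |P.coeff i| : ℤ) : ℝ) := by
  unfold len
  push_cast
  refine Finset.sum_congr rfl fun i _ => ?_
  rw [Nat.cast_natAbs, Int.cast_abs]

theorem main {A ε : ℝ} (hA : 1 < A) (hε : 0 < ε) : ∃ k₀ : ℕ, ∀ k : ℕ, k₀ ≤ k →
    ∀ s : Multiset ℕ, (∀ n ∈ s, 0 < n) →
      ((((X - 1) ^ k * cp s).natDegree : ℝ) ≤ (k : ℝ) ^ A) →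
      (2 + 2 / (A - 1) - ε) * k ≤ len ((X - 1) ^ k * cp s) := by
  obtain ⟨k₀, h⟩ := main_ne_one hA hε
  refine ⟨k₀, fun k hk s hs hd => ?_⟩
  have h1 : (X - 1 : ℤ[X]) ^ k * cp s = (X - 1) ^ (k + s.count 1) * cp (s.filter (· ≠ 1)) := by
    rw [cp_split s 1, cyclotomic_one]
    ring
  have h2 : (k : ℝ) ≤ (k + s.count 1 : ℕ) := by exact_mod_cast Nat.le_add_right _ _
  have h3 := h (k + s.count 1) (by omega) (s.filter (· ≠ 1))
    (fun n hn => hs n (Multiset.mem_filter.1 hn).1) (fun n hn => (Multiset.mem_filter.1 hn).2)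
    (by rw [← h1]; exact hd.trans (Real.rpow_le_rpow (by positivity) h2 (by linarith)))
  rw [← h1] at h3
  by_cases h4 : 0 ≤ 2 + 2 / (A - 1) - ε
  · exact (mul_le_mul_of_nonneg_left h2 h4).trans h3
  · exact (mul_nonpos_of_nonpos_of_nonneg (not_le.1 h4).le (by positivity)).trans (by positivity)

end Pool.Agent.Lib.MP_b48bf9_nt
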