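import Pool.Agent.Lib.MP_b48bf9_nt.Basic

set_option autoImplicit false

namespace Pool.Agent.Lib.MP_b48bf9_nt

open Polynomial Finset

/-- Newton's identities for a multiset. -/
theorem newton_ms {F : Type*} [CommRing F] (s : Multiset F) (k : ℕ) :
    (k : F) * s.esymm k = (-1) ^ (k + 1) *
      ∑ a ∈ antidiagonal k with a.1 < k, (-1) ^ a.1 * s.esymm a.1 * (s.map (· ^ a.2)).sum := by
  classical
  induction s using Quotient.inductionOn with
  | h l =>
    have h := congrArg (MvPolynomial.aeval (R := F) (fun i : Fin l.length => l.get i))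
      (MvPolynomial.mul_esymm_eq_sum (Fin l.length) F k)
    have e : (Finset.univ.val.map (fun i : Fin l.length => l.get i)) = (l : Multiset F) := by
      rw [Fin.univ_val_map]
      simp
    have e2 : ∀ j : ℕ, MvPolynomial.aeval (R := F) (fun i : Fin l.length => l.get i)
        (MvPolynomial.psum (Fin l.length) F j) = ((l : Multiset F).map (· ^ j)).sum := by
      intro j
      rw [← e, Multiset.map_map]
      simp only [MvPolynomial.psum, map_sum, map_pow, MvPolynomial.aeval_X]
      rfl
    simp only [map_mul, map_natCast, map_pow, map_neg, map_one, map_sum,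
      MvPolynomial.aeval_esymm_eq_multiset_esymm, e, e2] at h
    exact h

theorem esymm_of_card_lt {F : Type*} [CommRing F] (s : Multiset F) {k : ℕ} (h : s.card < k) :
    s.esymm k = 0 := by
  simp [Multiset.esymm, Multiset.powersetCard_eq_empty k h]

theorem pte_field {F : Type*} [Field F] (A B : Multiset F) (N : ℕ)
    (hN : ∀ k, 0 < k → k < N → (k : F) ≠ 0)
    (hp : ∀ j, 0 < j → j < N → (A.map (· ^ j)).sum = (B.map (· ^ j)).sum)
    (hA : A.card < N) (hB : B.card < N) : (A.map (· ^ N)).sum = (B.map (· ^ N)).sum := by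
  have he : ∀ k, k < N → A.esymm k = B.esymm k := by
    intro k
    induction k using Nat.strong_induction_on with
    | _ k ih =>
      intro hk
      rcases Nat.eq_zero_or_pos k with rfl | h0
      · simp [Multiset.esymm]
      apply mul_left_cancel₀ (hN k h0 hk)
      rw [newton_ms, newton_ms]
      congr 1
      refine Finset.sum_congr rfl fun a ha => ?_
      simp only [mem_filter, HasAntidiagonal.mem_antidiagonal] at ha
      rw [ih a.1 ha.2 (by omega), hp a.2 (by omega) (by omega)]
  have h1 := newton_ms A N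
  have h2 := newton_ms B N
  rw [esymm_of_card_lt A hA, mul_zero] at h1
  rw [esymm_of_card_lt B hB, mul_zero] at h2
  have h3 := mul_left_cancel₀ (pow_ne_zero (N + 1) (neg_ne_zero.2 (one_ne_zero (α := F))))
    (h1.symm.trans h2)
  have hm : ((0, N) : ℕ × ℕ) ∈ (antidiagonal N).filter (fun a => a.1 < N) := by
    simp only [mem_filter, HasAntidiagonal.mem_antidiagonal]
    omega
  rw [← Finset.add_sum_erase _ _ hm, ← Finset.add_sum_erase _ _ hm] at h3
  have h4 : ∑ a ∈ ((antidiagonal N).filter (fun a => a.1 < N)).erase (0, N),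
      (-1) ^ a.1 * A.esymm a.1 * (A.map (· ^ a.2)).sum =
      ∑ a ∈ ((antidiagonal N).filter (fun a => a.1 < N)).erase (0, N),
      (-1) ^ a.1 * B.esymm a.1 * (B.map (· ^ a.2)).sum := by
    refine Finset.sum_congr rfl fun a ha => ?_
    simp only [mem_erase, mem_filter, HasAntidiagonal.mem_antidiagonal] at ha
    have h5 : a.1 ≠ 0 := fun h => ha.1 (Prod.ext h (by have := ha.2.1; simp only; omega))
    rw [he a.1 ha.2.2, hp a.2 (by omega) (by omega)]
  rw [h4] at h3
  simpa [Multiset.esymm] using h3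

/-- An integer polynomial as a difference of two multisets of exponents. -/
theorem exists_multisets (T : ℤ[X]) : ∃ A B : Multiset ℕ, A.card + B.card = len T ∧
    ∀ {F : Type} [CommRing F] (φ : ℕ → F),
      lam φ (T.map (Int.castRingHom F)) = (A.map φ).sum - (B.map φ).sum := by
  refine ⟨∑ i ∈ T.support, Multiset.replicate (T.coeff i).toNat i,
    ∑ i ∈ T.support, Multiset.replicate (-T.coeff i).toNat i, ?_, ?_⟩
  · simp only [Multiset.card_sum, Multiset.card_replicate, len, ← Finset.sum_add_distrib]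
    refine Finset.sum_congr rfl fun i _ => ?_
    omega
  · intro F _ φ
    have h1 : lam φ (T.map (Int.castRingHom F)) = ∑ i ∈ T.support, (T.coeff i : F) * φ i := by
      unfold lam
      rw [sum_eq_of_subset _ (fun _ => by simp) (support_map_subset _ T)]
      simp
    rw [h1]
    have h3 : ∀ w : ℕ → ℕ, ((∑ i ∈ T.support, Multiset.replicate (w i) i).map φ).sum =
        ∑ i ∈ T.support, (w i : F) * φ i := by
      intro w
      induction T.support using Finset.induction_on with
      | empty => simp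
      | insert a s ha ih => simp [Finset.sum_insert ha, ih]
    rw [h3, h3, ← Finset.sum_sub_distrib]
    simp only [← sub_mul]
    refine Finset.sum_congr rfl fun i _ => ?_
    congr 1
    have h2 : T.coeff i = ((T.coeff i).toNat : ℤ) - ((-T.coeff i).toNat : ℤ) := by omega
    conv_lhs => rw [h2]
    push_cast
    rfl

theorem cast_ne_zero_of_lt {q : ℕ} {k : ℕ} (h0 : 0 < k) (hk : k < q) : (k : ZMod q) ≠ 0 := by
  rw [Ne, ZMod.natCast_eq_zero_iff]
  exact fun h => absurd (Nat.le_of_dvd h0 h) (by omega)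

theorem factorial_ne_zero_of_lt {q : ℕ} (hq : q.Prime) {k : ℕ} (hk : k < q) :
    (k.factorial : ZMod q) ≠ 0 := by
  rw [Ne, ZMod.natCast_eq_zero_iff, hq.dvd_factorial]
  omega

/-- One digit: a short polynomial with exact order `N < q` at `1` modulo `q` has length `≥ 2N`. -/
theorem two_mul_le_len {q : ℕ} (hq : q.Prime) (T : ℤ[X]) (N : ℕ) (G : (ZMod q)[X])
    (hT : T.map (Int.castRingHom (ZMod q)) = (X - 1) ^ N * G) (hG : G.eval 1 ≠ 0) (hN : N < q)
    (hl : len T < q) : 2 * N ≤ len T := by
  have := Fact.mk hq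
  obtain ⟨A, B, hc, hφ⟩ := exists_multisets T
  by_contra hcon
  have hN0 : 0 < N := by omega
  have h0 := lam_eval_lt (1 : (ZMod q)[X]) (m := N) (by simpa using hN0) G
  rw [← hT, hφ] at h0
  simp only [eval_one, Multiset.map_const', Multiset.sum_replicate, nsmul_eq_mul, mul_one,
    sub_eq_zero] at h0
  have hAB : A.card = B.card := by
    rw [ZMod.natCast_eq_natCast_iff'] at h0
    rwa [Nat.mod_eq_of_lt (by omega), Nat.mod_eq_of_lt (by omega)] at h0
  have h1 := pte_field (A.map (fun i : ℕ => (i : ZMod q))) (B.map (fun i : ℕ => (i : ZMod q))) N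
    (fun k h0 hk => cast_ne_zero_of_lt h0 (by omega)) (fun j _ hj => by
      have h2 := lam_eval_lt (X ^ j : (ZMod q)[X]) (m := N) (by simpa using hj) G
      rw [← hT, hφ, sub_eq_zero] at h2
      simpa [Multiset.map_map] using h2) (by rw [Multiset.card_map]; omega)
      (by rw [Multiset.card_map]; omega)
  have h3 := lam_eval_eq (X ^ N : (ZMod q)[X]) (monic_X_pow N) G
  rw [natDegree_X_pow, ← hT, hφ] at h3
  simp only [Multiset.map_map, Function.comp] at h1
  simp only [eval_pow, eval_X] at h3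
  rw [h1, sub_self] at h3
  exact mul_ne_zero hG (factorial_ne_zero_of_lt hq hN) h3.symm

/-- Many residue classes of exponents have the exact order. -/
theorem exists_classes {q : ℕ} (hq : q.Prime) (P : ℤ[X]) (a b : ℕ) (G : (ZMod q)[X])
    (hP : P.map (Int.castRingHom (ZMod q)) = (X - 1) ^ (a + q * b) * G) (hG : G.eval 1 ≠ 0)
    (ha : a < q) : ∃ S : Finset ℕ, S ⊆ range q ∧ a < S.card ∧ ∀ r ∈ S, ∃ G' : (ZMod q)[X],
      (cmp q r P).map (Int.castRingHom (ZMod q)) = (X - 1) ^ b * G' ∧ G'.eval 1 ≠ 0 := by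
  classical
  have := Fact.mk hq
  set H : (ZMod q)[X] := (X - 1) ^ a * G with hH
  have h1 : P.map (Int.castRingHom (ZMod q)) = (X ^ q - 1) ^ b * H := by
    rw [hP, hH, pow_add, pow_mul, sub_pow_char (p := q), one_pow]
    ring
  refine ⟨(range q).filter (fun r => (cmp q r H).eval 1 ≠ 0), filter_subset _ _, ?_, ?_⟩
  · by_contra hcon
    set S := (range q).filter (fun r => (cmp q r H).eval 1 ≠ 0) with hS
    set g : (ZMod q)[X] := (∏ r ∈ S, (X - C (r : ZMod q))) * X ^ (a - S.card) with hg
    have hm1 : (∏ r ∈ S, (X - C (r : ZMod q))).Monic :=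
      monic_prod_of_monic _ _ (fun r _ => monic_X_sub_C _)
    have hm : g.Monic := hm1.mul (monic_X_pow _)
    have hd : g.natDegree = a := by
      rw [hg, hm1.natDegree_mul (monic_X_pow _), natDegree_X_pow, natDegree_finsetProd_X_sub_C_eq_card]
      omega
    have h2 := lam_eval_eq g hm G
    rw [hd, ← hH, lam_periodic hq.pos _ (fun j r => by simp)] at h2
    refine mul_ne_zero hG (factorial_ne_zero_of_lt hq ha) (h2.symm.trans ?_)
    refine Finset.sum_eq_zero fun r hr => ?_
    by_cases h3 : (cmp q r H).eval 1 = 0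
    · rw [h3, zero_mul]
    · have h4 : r ∈ S := mem_filter.2 ⟨hr, h3⟩
      rw [hg, eval_mul, eval_prod, Finset.prod_eq_zero h4 (by simp), zero_mul, mul_zero]
  · intro r hr
    rw [mem_filter, mem_range] at hr
    exact ⟨cmp q r H, by rw [cmp_map _ hq.pos, h1, cmp_pow_mul hr.1], hr.2⟩

theorem card_mul_le_len {q : ℕ} (hq : 0 < q) (P : ℤ[X]) (S : Finset ℕ) (hS : S ⊆ range q) (w : ℕ)
    (hw : ∀ r ∈ S, w ≤ len (cmp q r P)) : S.card * w ≤ len P := by
  rw [len_eq_sum_cmp hq]
  calc S.card * w = ∑ _r ∈ S, w := by simp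
    _ ≤ ∑ r ∈ S, len (cmp q r P) := Finset.sum_le_sum hw
    _ ≤ _ := Finset.sum_le_sum_of_subset hS

theorem len_cmp_le {q r : ℕ} (hr : r < q) (P : ℤ[X]) : len (cmp q r P) ≤ len P := by
  rw [len_eq_sum_cmp (q := q) (by omega) P]
  exact Finset.single_le_sum (f := fun r => len (cmp q r P)) (fun _ _ => Nat.zero_le _)
    (mem_range.2 hr)

/-- All digits: a polynomial of length `< q` with exact order `K ≥ 1` at `1` modulo `q` has length
at least twice a positive number congruent to `K` modulo `q - 1`. -/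
theorem exists_digit_sum {q : ℕ} (hq : q.Prime) (K : ℕ) : ∀ (T : ℤ[X]) (G : (ZMod q)[X]),
    T.map (Int.castRingHom (ZMod q)) = (X - 1) ^ K * G → G.eval 1 ≠ 0 → 0 < K → len T < q →
    ∃ S t : ℕ, 0 < S ∧ K = S + (q - 1) * t ∧ 2 * S ≤ len T := by
  induction K using Nat.strong_induction_on with
  | _ K ih =>
    intro T G hT hG hK hl
    by_cases h : K < q
    · exact ⟨K, 0, hK, by simp, two_mul_le_len hq T K G hT hG h hl⟩
    · have h2 := hq.two_le
      have hb : 0 < K / q := Nat.div_pos (by omega) hq.pos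
      have hb2 : K / q < K := Nat.div_lt_self hK hq.one_lt
      obtain ⟨S, hS, hc, hr⟩ := exists_classes hq T (K % q) (K / q) G
        (by rw [Nat.mod_add_div]; exact hT) hG (Nat.mod_lt _ hq.pos)
      have hne : S.Nonempty := card_pos.1 (by omega)
      obtain ⟨r0, hr0, hmin⟩ := S.exists_min_image (fun r => len (cmp q r T)) hne
      obtain ⟨G', h3, h4⟩ := hr r0 hr0
      obtain ⟨S', t, h5, h6, h7⟩ := ih _ hb2 _ G' h3 h4 hb
        (lt_of_le_of_lt (len_cmp_le (mem_range.1 (hS hr0)) T) hl)
      have h8 := card_mul_le_len hq.pos T S hS (2 * S') (fun r hr => h7.trans (hmin r hr))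
      refine ⟨K % q + S', t + K / q, by omega, ?_, ?_⟩
      · have h9 := Nat.mod_add_div K q
        obtain ⟨p, rfl⟩ : ∃ p, q = p + 1 := ⟨q - 1, by omega⟩
        simp only [Nat.add_sub_cancel] at h6 ⊢
        set b := K / (p + 1)
        set a := K % (p + 1)
        rw [← h9]
        nlinarith
      · have h9 : (K % q + 1) * (2 * S') ≤ S.card * (2 * S') := Nat.mul_le_mul_right _ hc
        have h10 : K % q * 1 ≤ K % q * S' := Nat.mul_le_mul_left _ h5
        nlinarith

/-- The weight bound modulo `q`. -/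
theorem weight_bound {q : ℕ} (hq : q.Prime) (P : ℤ[X]) (a N t : ℕ) (G : (ZMod q)[X])
    (hP : P.map (Int.castRingHom (ZMod q)) = (X - 1) ^ (a + q * (N + (q - 1) * t)) * G)
    (hG : G.eval 1 ≠ 0) (ha : a < q) (hN : 2 * N ≤ q) : (a + 1) * (2 * N) ≤ len P := by
  rcases Nat.eq_zero_or_pos N with rfl | hN0
  · simp
  obtain ⟨S, hS, hc, hr⟩ := exists_classes hq P a _ G hP hG ha
  refine le_trans (Nat.mul_le_mul_right _ hc) (card_mul_le_len hq.pos P S hS _ fun r hr' => ?_)
  by_cases hl : len (cmp q r P) < q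
  · obtain ⟨G', h1, h2⟩ := hr r hr'
    obtain ⟨S', t', h3, h4, h5⟩ := exists_digit_sum hq _ _ G' h1 h2 (by omega) hl
    refine le_trans (Nat.mul_le_mul_left 2 ?_) h5
    by_contra hcon
    have h6 : t < t' := by
      by_contra h7
      have : (q - 1) * t' ≤ (q - 1) * t := Nat.mul_le_mul_left _ (by omega)
      omega
    have h8 : (q - 1) * (t + 1) ≤ (q - 1) * t' := Nat.mul_le_mul_left _ h6
    rw [Nat.mul_succ] at h8
    omega
  · omega

end Pool.Agent.Lib.MP_b48bf9_nt
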